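import Pool.Agent.helper88.T8.Spec
import Pool.Agent.helper92.T5.SZ
import Pool.Agent.helper11.T5.TR

/-!
# T8 (MP_16912e_nt), row WG8: Weyl bound for the tuples with `k ≤ n`
-/

set_option autoImplicit false

namespace Pool.Agent.T8

open Finset NumberField Pool.Agent.helper3.FT Pool.Agent.helper47.RA Pool.Agent.T5 Pool.Agent.T6 Pool.Agent.T7
open scoped nonZeroDivisors

/-- the dyadic exponent -/
theorem WG8_clog (n : ℕ) (hn : 1 ≤ n) : n ≤ 2 ^ Nat.clog 2 n ∧ 2 ^ Nat.clog 2 n < 2 * n := by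
  refine ⟨Nat.le_pow_clog (by norm_num) n, ?_⟩
  rcases Nat.lt_or_ge 1 n with h | h
  · have h1 := Nat.pow_pred_clog_lt_self (b := 2) (by norm_num) h
    have h2 : 0 < Nat.clog 2 n := Nat.clog_pos (by norm_num) h
    obtain ⟨i, hi⟩ : ∃ i, Nat.clog 2 n = i + 1 := ⟨Nat.clog 2 n - 1, by omega⟩
    rw [hi] at h1 ⊢
    rw [Nat.pred_succ] at h1
    rw [pow_succ]
    omega
  · have h1 : n = 1 := le_antisymm h hn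
    subst h1
    norm_num

/-- sizes of `n`, `k` -/
theorem WG8_size {κ N Y : ℝ} {d : ℕ} {t : Tpl} (hκ : 0 < κ) (hN : 0 < N) (hY : 0 < Y) (hd : 1 ≤ d)
    (h : Ce κ (N * (d : ℝ) ^ 2) Y t) :
    (t.1.1 : ℝ) * (d * √N) ≤ 3 * (Y * √Y) ∧ (t.1.2 : ℝ) * (d * √N) ≤ 3 * (Y * √Y) := by
  have hd0 : (0 : ℝ) < d := by exact_mod_cast hd
  have hZ : (0 : ℝ) < t.2.2.2 := lt_of_lt_of_le (by positivity) h.z1
  have hL : (0 : ℝ) < lam t := lt_of_lt_of_le (by positivity) h.l1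
  have hD : (0 : ℝ) < -(dis t : ℝ) := lt_of_le_of_lt (by positivity) h.d1
  obtain ⟨h1, h2, -, -⟩ := SZ TR t h.tt (by exact_mod_cast hZ) (by exact_mod_cast hL)
    (by
      have h3 : (dis t : ℝ) < 0 := by linarith
      exact_mod_cast h3)
  have h3 : (d : ℝ) * √N ≤ 3 / 2 * √(-(dis t : ℝ)) := by
    have h4 : ((d : ℝ) * √N) ^ 2 ≤ (3 / 2 * √(-(dis t : ℝ))) ^ 2 := by
      rw [mul_pow, mul_pow, Real.sq_sqrt hN.le, Real.sq_sqrt hD.le]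
      have h5 := h.d1
      nlinarith
    exact (abs_le_of_sq_le_sq h4 (by positivity)).trans' (le_abs_self _)
  have hsZ : √(t.2.2.2 : ℝ) ≤ √Y := Real.sqrt_le_sqrt h.z2
  have hsL : √(lam t : ℝ) ≤ √Y := Real.sqrt_le_sqrt h.l2
  have hn0 : (0 : ℝ) ≤ t.1.1 := Nat.cast_nonneg _
  have hk0 : (0 : ℝ) ≤ t.1.2 := Nat.cast_nonneg _
  constructor
  · calc (t.1.1 : ℝ) * (d * √N) ≤ t.1.1 * (3 / 2 * √(-(dis t : ℝ))) :=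
          mul_le_mul_of_nonneg_left h3 hn0
      _ = 3 / 2 * (t.1.1 * √(-(dis t : ℝ))) := by ring
      _ ≤ 3 / 2 * (2 * t.2.2.2 * √(lam t : ℝ)) := by linarith
      _ = 3 * (t.2.2.2 * √(lam t : ℝ)) := by ring
      _ ≤ 3 * (Y * √Y) := by
          have h5 := mul_le_mul h.z2 hsL (Real.sqrt_nonneg _) hY.le
          linarith
  · calc (t.1.2 : ℝ) * (d * √N) ≤ t.1.2 * (3 / 2 * √(-(dis t : ℝ))) :=
          mul_le_mul_of_nonneg_left h3 hk0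
      _ = 3 / 2 * (t.1.2 * √(-(dis t : ℝ))) := by ring
      _ ≤ 3 / 2 * (2 * √(t.2.2.2 : ℝ) * lam t) := by linarith
      _ = 3 * (√(t.2.2.2 : ℝ) * lam t) := by ring
      _ ≤ 3 * (Y * √Y) := by
          have h5 := mul_le_mul hsZ h.l2 hL.le (Real.sqrt_nonneg Y)
          linarith [mul_comm (√Y) Y]

/-- summation over the dyadic blocks -/
theorem WG8_sum {C₅ : ℝ} (h5 : ∀ (x : ℝ) (I : Finset ℕ), 0 < x → (∀ i ∈ I, (2 : ℝ) ^ i * x ≤ 1) →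
    ∑ i ∈ I, ((2 : ℝ) ^ i * x) ^ (1 / 88 : ℝ) ≤ C₅) (x X : ℝ) (hx : 0 < x) (hX : 0 ≤ X)
    (F : Finset Tpl) (φ : Tpl → ℕ × ℕ)
    (h : ∀ t ∈ F, (2 : ℝ) ^ (φ t).1 * x ≤ 1 ∧ (2 : ℝ) ^ (φ t).2 * x ≤ 1)
    (hF : ∀ b ∈ F.image φ, ((F.filter (fun t => φ t = b)).card : ℝ) ≤
      X * (((2 : ℝ) ^ b.1 * x) * ((2 : ℝ) ^ b.2 * x)) ^ (1 / 88 : ℝ)) :
    (F.card : ℝ) ≤ X * (C₅ * C₅) := by
  have h1 : (F.card : ℝ) = ∑ b ∈ F.image φ, ((F.filter (fun t => φ t = b)).card : ℝ) := by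
    rw [Finset.card_eq_sum_card_image φ F]
    push_cast
    rfl
  have hpos : ∀ i : ℕ, 0 ≤ (2 : ℝ) ^ i * x := fun i => by positivity
  have hI : ∀ i ∈ (F.image φ).image Prod.fst, (2 : ℝ) ^ i * x ≤ 1 := by
    intro i hi
    obtain ⟨b, hb, rfl⟩ := Finset.mem_image.1 hi
    obtain ⟨t, ht, rfl⟩ := Finset.mem_image.1 hb
    exact (h t ht).1
  have hJ : ∀ i ∈ (F.image φ).image Prod.snd, (2 : ℝ) ^ i * x ≤ 1 := by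
    intro i hi
    obtain ⟨b, hb, rfl⟩ := Finset.mem_image.1 hi
    obtain ⟨t, ht, rfl⟩ := Finset.mem_image.1 hb
    exact (h t ht).2
  have s1 := h5 x _ hx hI
  have s2 := h5 x _ hx hJ
  have hs0 : 0 ≤ ∑ i ∈ (F.image φ).image Prod.snd, ((2 : ℝ) ^ i * x) ^ (1 / 88 : ℝ) :=
    Finset.sum_nonneg fun i _ => Real.rpow_nonneg (hpos i) _
  have hs1 : 0 ≤ ∑ i ∈ (F.image φ).image Prod.fst, ((2 : ℝ) ^ i * x) ^ (1 / 88 : ℝ) :=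
    Finset.sum_nonneg fun i _ => Real.rpow_nonneg (hpos i) _
  calc (F.card : ℝ) = ∑ b ∈ F.image φ, ((F.filter (fun t => φ t = b)).card : ℝ) := h1
    _ ≤ ∑ b ∈ F.image φ, X * (((2 : ℝ) ^ b.1 * x) * ((2 : ℝ) ^ b.2 * x)) ^ (1 / 88 : ℝ) :=
        Finset.sum_le_sum hF
    _ ≤ ∑ b ∈ (F.image φ).image Prod.fst ×ˢ (F.image φ).image Prod.snd,
          X * (((2 : ℝ) ^ b.1 * x) * ((2 : ℝ) ^ b.2 * x)) ^ (1 / 88 : ℝ) := by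
        refine Finset.sum_le_sum_of_subset_of_nonneg ?_ ?_
        · intro b hb
          exact Finset.mem_product.2 ⟨Finset.mem_image_of_mem _ hb, Finset.mem_image_of_mem _ hb⟩
        · intro b _ _
          exact mul_nonneg hX (Real.rpow_nonneg (mul_nonneg (hpos _) (hpos _)) _)
    _ = X * ((∑ i ∈ (F.image φ).image Prod.fst, ((2 : ℝ) ^ i * x) ^ (1 / 88 : ℝ)) *
          ∑ i ∈ (F.image φ).image Prod.snd, ((2 : ℝ) ^ i * x) ^ (1 / 88 : ℝ)) := by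
        rw [Finset.sum_mul_sum, ← Finset.sum_product', Finset.mul_sum]
        refine Finset.sum_congr rfl fun b _ => ?_
        rw [Real.mul_rpow (hpos _) (hpos _)]
    _ ≤ X * (C₅ * C₅) :=
        mul_le_mul_of_nonneg_left (mul_le_mul s1 s2 hs0 (hs1.trans s1)) hX

/-- one block -/
theorem WG8_block (hWB8 : WB8_stmt) :
    ∃ C₄ : ℝ, 1 ≤ C₄ ∧ ∀ (κ A C₁ C₂ C₃ N Y : ℝ), 0 < κ → κ ≤ 1 → 1 ≤ C₁ → 1 ≤ N → 1 ≤ Y →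
    (∀ (N Y μ : ℝ) (n k : ℕ), 0 < N → 0 < Y → 0 < μ → μ ≤ 1 → 1 ≤ n → 1 ≤ k →
      (n : ℝ) * k * N ≤ 36 * μ * Y ^ 3 →
      ∃ B : Finset (ℝ × ℝ × ℝ), (B.card : ℝ) ≤ C₁ / μ ^ 2 ∧ ∀ t : Tpl, Ce κ N Y t → t.1 = (n, k) →
        ∃ c ∈ B, |(t.2.1 : ℝ) - c.1| ≤ C₁ * μ * (((n : ℝ) + k) * √Y) ∧
          |(t.2.2.1 : ℝ) - c.2.1| ≤ C₁ * μ * (((n : ℝ) + k) * √Y) ∧
          c.2.2 < t.2.2.2 ∧ (t.2.2.2 : ℝ) ≤ c.2.2 + μ * Y) →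
    ∀ (d er es y N₁ K₁ : ℕ) (μ : ℝ) (L T : ℕ) (ρ : ℝ), Md d er es y → 1 ≤ N₁ → 1 ≤ K₁ →
      (N₁ : ℝ) * d * √N ≤ 6 * (Y * √Y) → (K₁ : ℝ) * d * √N ≤ 6 * (Y * √Y) →
      μ = (K₁ * d * √N / (6 * (Y * √Y))) ^ (1 / 44 : ℝ) → 1 ≤ L → 1 ≤ T → 0 ≤ ρ →
      C₁ * μ * (((N₁ : ℝ) + K₁) * √Y) + 3 * (er * es) ≤ er * es * (L : ℝ) →
      (T = 1 ∨ (64 * T * (μ * Y) ≤ (N₁ : ℝ) ^ 3 * K₁ * es * (er : ℝ) ^ 2 ∧
        32 * ((T : ℝ) * es) * L / (N₁ : ℝ) ^ 3 + 2 * (N₁ : ℝ) ^ 2 * K₁ / L + (K₁ : ℝ) ^ 3 / L ≤ ρ ∧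
        4 * (N₁ : ℝ) / K₁ * (32 * ((T : ℝ) * es) * L / (N₁ : ℝ) ^ 3 + 2 * (N₁ : ℝ) ^ 2 * K₁ / L + (K₁ : ℝ) ^ 3 / L) +
          5 * (N₁ : ℝ) ^ 3 / L ≤ ρ)) →
      ∀ (s : ℝ) (S : ℕ × ℕ → Finset Cls), (∀ p, ((S p).card : ℝ) ≤ s) → ∀ F : Finset Tpl,
      (∀ t ∈ F, Ce κ (N * (d : ℝ) ^ 2) Y t ∧ y ∣ t.1.1 * t.1.2 ∧
        Nat.Coprime (t.1.1 * t.1.2) er ∧ (∃ x ∈ S t.1, InC er es x t) ∧
        t.1.1 ≤ N₁ ∧ N₁ < 2 * t.1.1 ∧ t.1.2 ≤ K₁ ∧ K₁ < 2 * t.1.2) →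
      (F.card : ℝ) ≤ C₄ ^ (y.primeFactors.card + 1) * s *
        (C₁ / μ ^ 2 * (N₁ * K₁ / y) * ((L : ℝ) ^ 2 * (μ * Y / ((N₁ : ℝ) ^ 3 * K₁ * es * (er : ℝ) ^ 2) + 1 / T) +
        L * (1 + ρ ^ (3 / 2 : ℝ) * (T : ℝ) ^ (-(3 / 4) : ℝ) * (1 + T * y / (N₁ * K₁))))) := by
  obtain ⟨C₄, hC₄, hW⟩ := hWB8
  refine ⟨C₄, hC₄, ?_⟩
  intro κ A C₁ C₂ C₃ N Y hκ hκ1 hC₁ hN hY hCV d er es y N₁ K₁ μ L T ρ hM hN₁ hK₁ hu hv hμ hL hT hρ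
    hbox hTT s S hS F hF
  have hN0 : 0 < N := by linarith
  have hY0 : 0 < Y := by linarith
  have hd0 : (0 : ℝ) < d := by exact_mod_cast hM.d1
  have hK0 : (0 : ℝ) < K₁ := by exact_mod_cast hK₁
  have hN0' : (0 : ℝ) < N₁ := by exact_mod_cast hN₁
  have hsY : 0 < √Y := Real.sqrt_pos.2 hY0
  have hsN : 0 < √N := Real.sqrt_pos.2 hN0
  have hv0 : 0 < K₁ * d * √N / (6 * (Y * √Y)) := by positivity
  have hv1 : K₁ * d * √N / (6 * (Y * √Y)) ≤ 1 := by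
    rw [div_le_one (by positivity)]
    exact hv
  have hμ0 : 0 < μ := by
    rw [hμ]
    exact Real.rpow_pos_of_pos hv0 _
  have hμ1 : μ ≤ 1 := by
    rw [hμ]
    exact Real.rpow_le_one hv0.le hv1 (by norm_num)
  have hvμ : K₁ * d * √N / (6 * (Y * √Y)) ≤ μ := by
    rw [hμ]
    calc K₁ * d * √N / (6 * (Y * √Y)) = (K₁ * d * √N / (6 * (Y * √Y))) ^ (1 : ℝ) :=
          (Real.rpow_one _).symm
      _ ≤ _ := Real.rpow_le_rpow_of_exponent_ge hv0 hv1 (by norm_num)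
  have hB : ∀ p : ℕ × ℕ, ∃ B : Finset (ℝ × ℝ × ℝ), (B.card : ℝ) ≤ C₁ / μ ^ 2 ∧
      (1 ≤ p.1 → 1 ≤ p.2 → p.1 ≤ N₁ → p.2 ≤ K₁ → ∀ t : Tpl, Ce κ (N * (d : ℝ) ^ 2) Y t → t.1 = p →
        ∃ c ∈ B, |(t.2.1 : ℝ) - c.1| ≤ C₁ * μ * (((N₁ : ℝ) + K₁) * √Y) ∧
          |(t.2.2.1 : ℝ) - c.2.1| ≤ C₁ * μ * (((N₁ : ℝ) + K₁) * √Y) ∧
          c.2.2 < t.2.2.2 ∧ (t.2.2.2 : ℝ) ≤ c.2.2 + μ * Y) := by
    rintro ⟨n, k⟩
    by_cases hnk : 1 ≤ n ∧ 1 ≤ k ∧ n ≤ N₁ ∧ k ≤ K₁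
    · obtain ⟨h1, h2, h3, h4⟩ := hnk
      have h3' : (n : ℝ) ≤ N₁ := by exact_mod_cast h3
      have h4' : (k : ℝ) ≤ K₁ := by exact_mod_cast h4
      have hn0 : (0 : ℝ) ≤ n := Nat.cast_nonneg _
      have hk0 : (0 : ℝ) ≤ k := Nat.cast_nonneg _
      have h5 : (n : ℝ) * k * (N * (d : ℝ) ^ 2) ≤ 36 * μ * Y ^ 3 := by
        have e1 : (N₁ : ℝ) * d * √N * (K₁ * d * √N) = N₁ * K₁ * (N * (d : ℝ) ^ 2) := by
          have e2 : √N * √N = N := Real.mul_self_sqrt hN0.le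
          calc (N₁ : ℝ) * d * √N * (K₁ * d * √N) = N₁ * K₁ * ((√N * √N) * (d : ℝ) ^ 2) := by ring
            _ = _ := by rw [e2]
        have e3 : (K₁ : ℝ) * d * √N = K₁ * d * √N / (6 * (Y * √Y)) * (6 * (Y * √Y)) := by
          field_simp
        calc (n : ℝ) * k * (N * (d : ℝ) ^ 2) ≤ N₁ * K₁ * (N * (d : ℝ) ^ 2) :=
              mul_le_mul_of_nonneg_right (mul_le_mul h3' h4' hk0 hN0'.le) (by positivity)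
          _ = (N₁ : ℝ) * d * √N * (K₁ * d * √N) := e1.symm
          _ = (N₁ : ℝ) * d * √N * (K₁ * d * √N / (6 * (Y * √Y)) * (6 * (Y * √Y))) := by rw [← e3]
          _ ≤ 6 * (Y * √Y) * (μ * (6 * (Y * √Y))) :=
              mul_le_mul hu (mul_le_mul_of_nonneg_right hvμ (by positivity)) (by positivity)
                (by positivity)
          _ = 36 * μ * (Y ^ 2 * (√Y * √Y)) := by ring
          _ = 36 * μ * Y ^ 3 := by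
              rw [Real.mul_self_sqrt hY0.le]
              ring
      obtain ⟨B, hB1, hB2⟩ := hCV (N * (d : ℝ) ^ 2) Y μ n k (by positivity) hY0 hμ0 hμ1 h1 h2 h5
      refine ⟨B, hB1, fun _ _ _ _ t ht htp => ?_⟩
      obtain ⟨c, hc, c1, c2, c3, c4⟩ := hB2 t ht htp
      have h6 : C₁ * μ * (((n : ℝ) + k) * √Y) ≤ C₁ * μ * (((N₁ : ℝ) + K₁) * √Y) :=
        mul_le_mul_of_nonneg_left (mul_le_mul_of_nonneg_right (add_le_add h3' h4') hsY.le)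
          (by positivity)
      exact ⟨c, hc, c1.trans h6, c2.trans h6, c3, c4⟩
    · refine ⟨∅, ?_, fun h1 h2 h3 h4 => absurd ⟨h1, h2, h3, h4⟩ hnk⟩
      rw [Finset.card_empty, Nat.cast_zero]
      positivity
  choose B hB1 hB2 using hB
  have h7 := hW N₁ K₁ L T er es y (μ * Y) ρ s (C₁ / μ ^ 2) hN₁ hK₁ hL hT hM.r1 hM.s1 hM.co hM.sq
    hM.ys (by positivity) hρ hTT S hS B hB1 F (by
      intro t ht
      obtain ⟨hC, hy, hco, hx, h1, h2, h3, h4⟩ := hF t ht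
      refine ⟨hC.tt, ?_, hco, hx, ?_⟩
      · rw [pairs, Finset.mem_filter, Finset.mem_product, Finset.mem_Icc, Finset.mem_Icc]
        exact ⟨⟨⟨hC.tt.n1, h1⟩, ⟨hC.tt.k1, h3⟩⟩, h2, h4, hC.tt.co, hy⟩
      · obtain ⟨c, hc, c1, c2, c3, c4⟩ := hB2 t.1 hC.tt.n1 hC.tt.k1 h1 h3 t hC rfl
        exact ⟨c, hc, by linarith, by linarith, c3, c4⟩)
  refine h7.trans (le_of_eq ?_)
  ring

theorem WG8 (hCV8 : CV8_stmt) (hWB8 : WB8_stmt) (hNA8 : NA8_stmt) (hNB8 : NB8_stmt)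
    (hGM8 : GM8_stmt) : WG8_stmt := by
  intro κ A hκ hκ1 hA
  obtain ⟨C₁, hC₁, h1⟩ := hCV8 κ hκ hκ1
  obtain ⟨C₂, N₀, hC₂, hN₀, h2⟩ := hNA8 C₁ A hC₁ hA
  obtain ⟨C₃, hC₃, h3⟩ := hNB8 C₁ C₂ A hC₁ hC₂ hA
  obtain ⟨C₄, hC₄, h4⟩ := WG8_block hWB8
  obtain ⟨C₅, hC₅, h5⟩ := hGM8 (1 / 88) (by norm_num)
  have hC3 : 1 ≤ C₃ * (C₅ * C₅) := one_le_mul_of_one_le_of_one_le hC₃
    (one_le_mul_of_one_le_of_one_le hC₅ hC₅)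
  refine ⟨C₄ * (C₃ * (C₅ * C₅)), N₀, one_le_mul_of_one_le_of_one_le hC₄ hC3, hN₀, ?_⟩
  intro N Y hNN hYN hYA d er es y hM hd19 s S hS F hF
  have hN1 : 1 ≤ N := hN₀.trans hNN
  have hN0 : 0 < N := by linarith
  have hY1 : 1 ≤ Y := (Real.one_le_rpow hN1 (by norm_num)).trans hYN
  have hY0 : 0 < Y := by linarith
  have hd0 : (0 : ℝ) < d := by exact_mod_cast hM.d1
  have hsY : 0 < √Y := Real.sqrt_pos.2 hY0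
  have hsN : 0 < √N := Real.sqrt_pos.2 hN0
  have hr0 : (0 : ℝ) < er := by exact_mod_cast hM.r1
  have hs0 : (0 : ℝ) < es := by exact_mod_cast hM.s1
  have hy1 : 1 ≤ y := Nat.one_le_iff_ne_zero.2 hM.sq.ne_zero
  have hy0 : (0 : ℝ) < y := by exact_mod_cast hy1
  have hss : 0 ≤ s := (Nat.cast_nonneg _).trans (hS (0, 0))
  obtain ⟨x, hx⟩ : ∃ x : ℝ, x = d * √N / (6 * (Y * √Y)) := ⟨_, rfl⟩
  have hx0 : 0 < x := by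
    rw [hx]
    positivity
  obtain ⟨φ, hφ⟩ : ∃ φ : Tpl → ℕ × ℕ, φ = fun t => (Nat.clog 2 t.1.1, Nat.clog 2 t.1.2) := ⟨_, rfl⟩
  have hblk : ∀ t ∈ F, ((2 ^ (φ t).1 : ℕ) : ℝ) * d * √N ≤ 6 * (Y * √Y) ∧
      ((2 ^ (φ t).2 : ℕ) : ℝ) * d * √N ≤ 6 * (Y * √Y) ∧ 2 ^ (φ t).2 ≤ 2 * 2 ^ (φ t).1 ∧
      t.1.1 ≤ 2 ^ (φ t).1 ∧ 2 ^ (φ t).1 < 2 * t.1.1 ∧ t.1.2 ≤ 2 ^ (φ t).2 ∧
      2 ^ (φ t).2 < 2 * t.1.2 := by
    intro t ht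
    obtain ⟨hC, hP, -⟩ := hF t ht
    obtain ⟨a1, a2⟩ := WG8_size hκ hN0 hY0 hM.d1 hC
    obtain ⟨b1, b2⟩ := WG8_clog t.1.1 hC.tt.n1
    obtain ⟨c1, c2⟩ := WG8_clog t.1.2 hC.tt.k1
    have hP' : t.1.2 ≤ t.1.1 := hP
    rw [hφ]
    refine ⟨?_, ?_, by dsimp only; omega, b1, b2, c1, c2⟩
    · have b3 : ((2 ^ Nat.clog 2 t.1.1 : ℕ) : ℝ) ≤ 2 * t.1.1 := by exact_mod_cast b2.le
      calc ((2 ^ Nat.clog 2 t.1.1 : ℕ) : ℝ) * d * √N ≤ 2 * t.1.1 * d * √N :=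
            mul_le_mul_of_nonneg_right (mul_le_mul_of_nonneg_right b3 hd0.le) hsN.le
        _ = 2 * (t.1.1 * (d * √N)) := by ring
        _ ≤ 6 * (Y * √Y) := by linarith
    · have b3 : ((2 ^ Nat.clog 2 t.1.2 : ℕ) : ℝ) ≤ 2 * t.1.2 := by exact_mod_cast c2.le
      calc ((2 ^ Nat.clog 2 t.1.2 : ℕ) : ℝ) * d * √N ≤ 2 * t.1.2 * d * √N :=
            mul_le_mul_of_nonneg_right (mul_le_mul_of_nonneg_right b3 hd0.le) hsN.le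
        _ = 2 * (t.1.2 * (d * √N)) := by ring
        _ ≤ 6 * (Y * √Y) := by linarith
  have hX : 0 ≤ C₄ ^ (y.primeFactors.card + 1) * s * C₃ *
      (Y ^ 2 / y / ((er : ℝ) ^ 4 * (es : ℝ) ^ 3)) := by positivity
  have hfin := WG8_sum h5 x (C₄ ^ (y.primeFactors.card + 1) * s * C₃ *
      (Y ^ 2 / y / ((er : ℝ) ^ 4 * (es : ℝ) ^ 3))) hx0 hX F φ ?_ ?_
  · have hW0 : 0 ≤ s / y * (Y ^ 2 / ((er : ℝ) ^ 4 * (es : ℝ) ^ 3)) := by positivity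
    calc (F.card : ℝ) ≤ C₄ ^ (y.primeFactors.card + 1) * s * C₃ *
          (Y ^ 2 / y / ((er : ℝ) ^ 4 * (es : ℝ) ^ 3)) * (C₅ * C₅) := hfin
      _ = C₄ ^ (y.primeFactors.card + 1) * (C₃ * (C₅ * C₅)) *
          (s / y * (Y ^ 2 / ((er : ℝ) ^ 4 * (es : ℝ) ^ 3))) := by
          field_simp
      _ ≤ (C₄ * (C₃ * (C₅ * C₅))) ^ (y.primeFactors.card + 1) *
          (s / y * (Y ^ 2 / ((er : ℝ) ^ 4 * (es : ℝ) ^ 3))) := by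
          refine mul_le_mul_of_nonneg_right ?_ hW0
          rw [mul_pow]
          exact mul_le_mul_of_nonneg_left (le_self_pow₀ hC3 (Nat.succ_ne_zero _)) (by positivity)
      _ = _ := by ring
  · intro t ht
    obtain ⟨a1, a2, -⟩ := hblk t ht
    push_cast at a1 a2
    have hp : (0 : ℝ) < 6 * (Y * √Y) := by positivity
    constructor
    · rw [hx, ← mul_div_assoc, div_le_one hp]
      calc (2 : ℝ) ^ (φ t).1 * (d * √N) = 2 ^ (φ t).1 * d * √N := by ring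
        _ ≤ _ := a1
    · rw [hx, ← mul_div_assoc, div_le_one hp]
      calc (2 : ℝ) ^ (φ t).2 * (d * √N) = 2 ^ (φ t).2 * d * √N := by ring
        _ ≤ _ := a2
  · intro b hb
    obtain ⟨t₀, ht₀, hbt⟩ := Finset.mem_image.1 hb
    obtain ⟨a1, a2, a3, -⟩ := hblk t₀ ht₀
    rw [hbt] at a1 a2 a3
    obtain ⟨i, j⟩ := b
    dsimp only at a1 a2 a3 ⊢
    have hi1 : 1 ≤ 2 ^ i := Nat.one_le_two_pow
    have hj1 : 1 ≤ 2 ^ j := Nat.one_le_two_pow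
    obtain ⟨μ, hμ⟩ : ∃ μ : ℝ, μ = (((2 ^ j : ℕ) : ℝ) * d * √N / (6 * (Y * √Y))) ^ (1 / 44 : ℝ) :=
      ⟨_, rfl⟩
    obtain ⟨L, T, ρ, hL, hT, hρ, q1, q2, q3, q4, q5⟩ := h2 N Y hNN hYN hYA d er es (2 ^ i) (2 ^ j)
      hM.d1 hd19 hM.r1 hM.s1 hM.rs hi1 hj1 a3 a2 μ hμ
    have r1 := h4 κ A C₁ C₂ C₃ N Y hκ hκ1 hC₁ hN1 hY1 h1 d er es y (2 ^ i) (2 ^ j) μ L T ρ hM hi1
      hj1 a1 a2 hμ hL hT hρ q1 q2 s S hS (F.filter (fun t => φ t = (i, j))) (by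
        intro t ht
        obtain ⟨ht1, ht2⟩ := Finset.mem_filter.1 ht
        obtain ⟨hC, -, hy, hco, hxx⟩ := hF t ht1
        obtain ⟨-, -, -, c1, c2, c3, c4⟩ := hblk t ht1
        rw [ht2] at c1 c2 c3 c4
        exact ⟨hC, hy, hco, hxx, c1, c2, c3, c4⟩)
    have r2 := h3 N Y hN1 hY1 hYA d er es y (2 ^ i) (2 ^ j) hM.d1 hM.r1 hM.s1 hy1 hM.rs hM.rsy hi1
      hj1 a3 a1 a2 μ hμ L T ρ hL hT hρ q3 q4 q5
    have hCs : 0 ≤ C₄ ^ (y.primeFactors.card + 1) * s := by positivity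
    refine (r1.trans (mul_le_mul_of_nonneg_left r2 hCs)).trans (le_of_eq ?_)
    rw [hx]
    push_cast
    have e1 : (2 : ℝ) ^ i * d * √N / (6 * (Y * √Y)) = 2 ^ i * (d * √N / (6 * (Y * √Y))) := by ring
    have e2 : (2 : ℝ) ^ j * d * √N / (6 * (Y * √Y)) = 2 ^ j * (d * √N / (6 * (Y * √Y))) := by ring
    rw [e1, e2]
    ring

end Pool.Agent.T8
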